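import Pool.Agent.K3h26.R6.Stm

/-!
# The overlap of two truncated octahedra (times cubes) at a hexagonal face, in every dimension
(written by helper99 after `Pool.Agent.K3h92.R5.OVH` of helper92)
-/

set_option autoImplicit false

open MeasureTheory Set
open scoped ENNReal

namespace Pool.Agent.K3h99.R6

open H947TP Pool.Agent.K3h26.R6

/-- the coordinates -/
def ee (p : ℕ) : Fin 3 ⊕ Fin (p + 2) ≃ Fin (p + 5) :=
  finSumFinEquiv.trans (finCongr (by omega))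

theorem ee_0 (p : ℕ) : ee p (Sum.inl 0) = 0 := by
  apply Fin.ext
  simp [ee]

theorem ee_1 (p : ℕ) : ee p (Sum.inl 1) = 1 := by
  apply Fin.ext
  simp [ee]

theorem ee_2 (p : ℕ) : ee p (Sum.inl 2) = 2 := by
  apply Fin.ext
  simp [ee] <;> rfl

theorem ee_r (p : ℕ) (l : Fin (p + 2)) : ee p (Sum.inr l) = l.succ.succ.succ := by
  apply Fin.ext
  simp [ee] <;> omega

/-- a vector from its two parts -/
def bx {p : ℕ} (f : Fin 3 → ℝ) (g : Fin (p + 2) → ℝ) (i : Fin (p + 5)) : ℝ :=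
  Sum.elim f g ((ee p).symm i)

/-- the volume of a parallelepiped given by a unimodular matrix, with a product of reals -/
theorem vol_par' {n : ℕ} (M : Matrix (Fin n) (Fin n) ℝ) (hM : |M.det| = 1) (a b : Fin n → ℝ)
    (hab : ∀ i, a i ≤ b i) :
    volume ((Matrix.toLin' M) ⁻¹' (Icc a b)) = ENNReal.ofReal (∏ i, (b i - a i)) := by
  have h0 : LinearMap.det (Matrix.toLin' M) ≠ 0 := by
    rw [LinearMap.det_toLin']
    intro h
    rw [h, abs_zero] at hM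
    exact zero_ne_one hM
  rw [Measure.addHaar_preimage_linearMap volume h0, LinearMap.det_toLin', abs_inv, hM, inv_one,
    ENNReal.ofReal_one, one_mul, Real.volume_Icc_pi,
    ENNReal.ofReal_prod_of_nonneg fun i _ => sub_nonneg.2 (hab i)]

/-- the three by three matrices -/
def M3 (s t u a q r w : ℝ) : Matrix (Fin 3) (Fin 3) ℝ := !![a, q, 0; r, w, 0; s, t, u]

/-- the matrices -/
def MM (p : ℕ) (s t u a q r w : ℝ) : Matrix (Fin (p + 5)) (Fin (p + 5)) ℝ :=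
  (Matrix.fromBlocks (M3 s t u a q r w) 0 0 1).submatrix (ee p).symm (ee p).symm

theorem det_MM (p : ℕ) (s t u a q r w : ℝ) : (MM p s t u a q r w).det = (a * w - q * r) * u := by
  rw [MM, Matrix.det_submatrix_equiv_self, Matrix.det_fromBlocks_zero₂₁, Matrix.det_one, mul_one,
    M3, Matrix.det_fin_three]
  simp
  ring

theorem MM_apply (p : ℕ) (s t u a q r w : ℝ) (x : Fin (p + 5) → ℝ) (k : Fin 3 ⊕ Fin (p + 2)) :
    Matrix.toLin' (MM p s t u a q r w) x (ee p k) =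
      Sum.elim ![a * x 0 + q * x 1, r * x 0 + w * x 1, s * x 0 + t * x 1 + u * x 2] (yy x) k := by
  rw [Matrix.toLin'_apply, MM, Matrix.submatrix_mulVec_equiv, Function.comp_apply,
    Equiv.symm_apply_apply, Matrix.fromBlocks_mulVec]
  rcases k with i | l
  · rw [Sum.elim_inl, Sum.elim_inl]
    fin_cases i <;>
    simp [M3, Matrix.mulVec, dotProduct, Fin.sum_univ_succ, ee_0, ee_1, ee_2] <;> ring
  · rw [Sum.elim_inr, Sum.elim_inr]
    simp [ee_r, yy]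

theorem prod_bx {p : ℕ} (f f' : Fin 3 → ℝ) (g g' : Fin (p + 2) → ℝ) :
    ∏ i, (bx f' g' i - bx f g i) = (∏ i, (f' i - f i)) * ∏ l, (g' l - g l) := by
  rw [← (ee p).prod_comp, Fintype.prod_sum_type]
  refine congrArg₂ (· * ·) ?_ ?_
  · refine Finset.prod_congr rfl fun i _ => ?_
    rw [bx, bx, Equiv.symm_apply_apply, Sum.elim_inl, Sum.elim_inl]
  · refine Finset.prod_congr rfl fun i _ => ?_
    rw [bx, bx, Equiv.symm_apply_apply, Sum.elim_inr, Sum.elim_inr]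

theorem forall_ee {p : ℕ} (P : Fin (p + 5) → Prop) (h0 : P (ee p (Sum.inl 0)))
    (h1 : P (ee p (Sum.inl 1))) (h2 : P (ee p (Sum.inl 2))) (h3 : ∀ l, P (ee p (Sum.inr l))) :
    ∀ i, P i := by
  intro i
  obtain ⟨k, rfl⟩ := (ee p).surjective i
  rcases k with j | l
  · fin_cases j
    · exact h0
    · exact h1
    · exact h2
  · exact h3 l

/-- a sign -/
theorem exists_sign (a : ℝ) : ∃ s : ℝ, (s = 1 ∨ s = -1) ∧ s * a = |a| := by
  rcases le_total 0 a with h | h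
  · exact ⟨1, Or.inl rfl, by rw [abs_of_nonneg h, one_mul]⟩
  · exact ⟨-1, Or.inr rfl, by rw [abs_of_nonpos h]; ring⟩

theorem vol_E (p : ℕ) (s t u a q r w : ℝ) (hdet : |(a * w - q * r) * u| = 1)
    (f f' : Fin 3 → ℝ) (g g' : Fin (p + 2) → ℝ) (hf : ∀ i, f i ≤ f' i) (hg : ∀ l, g l ≤ g' l) :
    volume ((Matrix.toLin' (MM p s t u a q r w)) ⁻¹' (Icc (bx f g) (bx f' g'))) =
      ENNReal.ofReal ((∏ i, (f' i - f i)) * ∏ l, (g' l - g l)) := by
  rw [vol_par' _ (by rw [det_MM]; exact hdet) _ _ ?_, prod_bx]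
  intro i
  obtain ⟨k, rfl⟩ := (ee p).surjective i
  rw [bx, bx, Equiv.symm_apply_apply]
  rcases k with j | l
  · exact hf j
  · exact hg l

theorem mk_E {p : ℕ} (s t u a q r w : ℝ) (f f' : Fin 3 → ℝ) (g g' : Fin (p + 2) → ℝ)
    (x : Fin (p + 5) → ℝ) (h0 : f 0 ≤ a * x 0 + q * x 1 ∧ a * x 0 + q * x 1 ≤ f' 0)
    (h1 : f 1 ≤ r * x 0 + w * x 1 ∧ r * x 0 + w * x 1 ≤ f' 1)
    (h2 : f 2 ≤ s * x 0 + t * x 1 + u * x 2 ∧ s * x 0 + t * x 1 + u * x 2 ≤ f' 2)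
    (h3 : ∀ l, g l ≤ yy x l ∧ yy x l ≤ g' l) :
    x ∈ (Matrix.toLin' (MM p s t u a q r w)) ⁻¹' (Icc (bx f g) (bx f' g')) := by
  rw [mem_preimage, mem_Icc]
  constructor
  · refine forall_ee _ ?_ ?_ ?_ fun l => ?_
    · rw [MM_apply, bx, Equiv.symm_apply_apply]
      exact h0.1
    · rw [MM_apply, bx, Equiv.symm_apply_apply]
      exact h1.1
    · rw [MM_apply, bx, Equiv.symm_apply_apply]
      exact h2.1
    · rw [MM_apply, bx, Equiv.symm_apply_apply]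
      exact (h3 l).1
  · refine forall_ee _ ?_ ?_ ?_ fun l => ?_
    · rw [MM_apply, bx, Equiv.symm_apply_apply]
      exact h0.2
    · rw [MM_apply, bx, Equiv.symm_apply_apply]
      exact h1.2
    · rw [MM_apply, bx, Equiv.symm_apply_apply]
      exact h2.2
    · rw [MM_apply, bx, Equiv.symm_apply_apply]
      exact (h3 l).2

theorem t_OVH : S_OVH := by
  intro p v τ hv1 hv2 hv3 hτ hτ1
  obtain ⟨s0, hs0, h0⟩ := exists_sign (v 0)
  obtain ⟨s1, hs1, h1⟩ := exists_sign (v 1)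
  obtain ⟨s2, hs2, h2⟩ := exists_sign (v 2)
  have hτ0 : 0 < τ := by rw [hτ]; linarith
  have hn : |v 0| + |v 1| + |v 2| = 3 - 3 * τ := by
    have : n1 v = 3 - 3 * τ := by rw [hτ]; ring
    exact this
  -- the intervals of the last coordinates
  obtain ⟨a3, ha3⟩ : ∃ a3 : Fin (p + 2) → ℝ, a3 = fun l => max (-(1 / 2)) (yy v l - 1 / 2) :=
    ⟨_, rfl⟩
  obtain ⟨b3, hb3⟩ : ∃ b3 : Fin (p + 2) → ℝ, b3 = fun l => min (1 / 2) (yy v l + 1 / 2) := ⟨_, rfl⟩
  have hmy : ∀ l, |yy v l| < 1 := fun l =>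
    lt_of_le_of_lt (norm_le_pi_norm (yy v) l) hv3
  have hl : ∀ w : ℝ, min (1 / 2) (w + 1 / 2) - max (-(1 / 2)) (w - 1 / 2) = 1 - |w| := by
    intro w
    rcases le_total 0 w with h | h
    · rw [min_eq_left (by linarith), max_eq_right (by linarith), abs_of_nonneg h]; ring
    · rw [min_eq_right (by linarith), max_eq_left (by linarith), abs_of_nonpos h]; ring
  have hl3 : ∀ l, b3 l - a3 l = 1 - |yy v l| := fun l => by rw [hb3, ha3]; exact hl _
  have h3p : ∀ l, 0 < 1 - |yy v l| := fun l => by linarith [hmy l]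
  have hab : ∀ l, a3 l ≤ b3 l := fun l => by linarith [hl3 l, h3p l]
  have hmu : ∏ l, (b3 l - a3 l) = mu v := Finset.prod_congr rfl fun l _ => hl3 l
  have hP : 0 ≤ mu v := Finset.prod_nonneg fun l _ => (h3p l).le
  -- the three parallelepipeds
  set E1 : Set (Fin (p + 5) → ℝ) := (Matrix.toLin' (MM p s0 s1 s2 s0 s1 0 s1)) ⁻¹'
    (Icc (bx ![1 / 2 - 3 * τ, -(3 / 2) * τ, 3 / 2 - 3 * τ] a3) (bx ![1, 1 / 2, 3 / 2] b3)) with hE1
  set E2 : Set (Fin (p + 5) → ℝ) := (Matrix.toLin' (MM p s0 s1 s2 s0 0 s0 s1)) ⁻¹'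
    (Icc (bx ![1 / 2, 1, 3 / 2 - 3 * τ] a3) (bx ![1, 3 / 2 + 3 / 2 * τ, 3 / 2] b3)) with hE2
  set E3 : Set (Fin (p + 5) → ℝ) := (Matrix.toLin' (MM p s0 s1 s2 s0 0 0 s1)) ⁻¹'
    (Icc (bx ![-(3 / 2) * τ, 1 / 2, 3 / 2 - 3 * τ] a3) (bx ![1 / 2, 1, 3 / 2] b3)) with hE3
  have hs0' : |s0| = 1 := by rcases hs0 with h | h <;> rw [h] <;> simp
  have hs1' : |s1| = 1 := by rcases hs1 with h | h <;> rw [h] <;> simp
  have hs2' : |s2| = 1 := by rcases hs2 with h | h <;> rw [h] <;> simp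
  have hdet : |s0 * s1 * s2| = 1 := by rw [abs_mul, abs_mul, hs0', hs1', hs2']; norm_num
  have v1 : volume E1 = ENNReal.ofReal ((1 / 2 + 3 * τ) * (1 / 2 + 3 / 2 * τ) * (3 * τ) *
      mu v) := by
    rw [hE1, vol_E _ _ _ _ _ _ _ _ (by rw [← hdet]; congr 1; ring) _ _ _ _ (by
      intro i
      fin_cases i
      · show (1 / 2 - 3 * τ : ℝ) ≤ 1; linarith
      · show (-(3 / 2) * τ : ℝ) ≤ 1 / 2; linarith
      · show (3 / 2 - 3 * τ : ℝ) ≤ 3 / 2; linarith) hab, hmu]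
    congr 1
    rw [Fin.prod_univ_three]
    show (1 - (1 / 2 - 3 * τ)) * (1 / 2 - -(3 / 2) * τ) * (3 / 2 - (3 / 2 - 3 * τ)) * mu v = _
    ring
  have v2 : volume E2 = ENNReal.ofReal ((1 / 2) * (1 / 2 + 3 / 2 * τ) * (3 * τ) *
      mu v) := by
    rw [hE2, vol_E _ _ _ _ _ _ _ _ (by rw [← hdet]; congr 1; ring) _ _ _ _ (by
      intro i
      fin_cases i
      · show (1 / 2 : ℝ) ≤ 1; linarith
      · show (1 : ℝ) ≤ 3 / 2 + 3 / 2 * τ; linarith
      · show (3 / 2 - 3 * τ : ℝ) ≤ 3 / 2; linarith) hab, hmu]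
    congr 1
    rw [Fin.prod_univ_three]
    show (1 - 1 / 2) * (3 / 2 + 3 / 2 * τ - 1) * (3 / 2 - (3 / 2 - 3 * τ)) * mu v = _
    ring
  have v3 : volume E3 = ENNReal.ofReal ((1 / 2) * (1 / 2 + 3 / 2 * τ) * (3 * τ) *
      mu v) := by
    rw [hE3, vol_E _ _ _ _ _ _ _ _ (by rw [← hdet]; congr 1; ring) _ _ _ _ (by
      intro i
      fin_cases i
      · show (-(3 / 2) * τ : ℝ) ≤ 1 / 2; linarith
      · show (1 / 2 : ℝ) ≤ 1; linarith
      · show (3 / 2 - 3 * τ : ℝ) ≤ 3 / 2; linarith) hab, hmu]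
    congr 1
    rw [Fin.prod_univ_three]
    show (1 / 2 - -(3 / 2) * τ) * (1 - 1 / 2) * (3 / 2 - (3 / 2 - 3 * τ)) * mu v = _
    ring
  have hsub : Pt p 1 ∩ tr v (Pt p 1) ⊆ E1 ∪ (E2 ∪ E3) := by
    rintro x ⟨⟨x1, x2, x3⟩, y, ⟨y1, y2, y3⟩, rfl⟩
    have x3' : ∀ l, |yy (v + y) l| < 1 / 2 := fun l =>
      lt_of_le_of_lt (norm_le_pi_norm (yy (v + y)) l) x3
    have y3' : ∀ l, |yy y l| < 1 / 2 := fun l =>
      lt_of_le_of_lt (norm_le_pi_norm (yy y) l) y3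
    simp only [n1, ni, Pi.add_apply] at x1 x2 y1 y2
    set x : Fin (p + 5) → ℝ := v + y with hx
    have ex : ∀ i, v i + y i = x i := fun i => rfl
    simp only [ex] at x1 x2
    have ey : ∀ i, y i = x i - v i := fun i => by rw [← ex]; ring
    have ey' : ∀ l, yy y l = yy x l - yy v l := fun l => ey _
    simp only [ey] at y1 y2
    simp only [ey'] at y3'
    have key : ∀ (s z : ℝ), (s = 1 ∨ s = -1) → s * z ≤ |z| ∧ -(s * z) ≤ |z| := by
      rintro s z (h | h) <;> rw [h] <;> constructor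
      · rw [one_mul]; exact le_abs_self z
      · rw [one_mul]; exact neg_le_abs z
      · rw [neg_one_mul]; exact neg_le_abs z
      · rw [neg_one_mul, neg_neg]; exact le_abs_self z
    have k0 := key s0 (x 0) hs0
    have k1 := key s1 (x 1) hs1
    have k2 := key s2 (x 2) hs2
    have l0 := (key s0 (x 0 - v 0) hs0).2
    have l1 := (key s1 (x 1 - v 1) hs1).2
    have l2 := (key s2 (x 2 - v 2) hs2).2
    rw [mul_sub, h0] at l0
    rw [mul_sub, h1] at l1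
    rw [mul_sub, h2] at l2
    have m0 : |x 0| < 1 := lt_of_le_of_lt (le_max_left _ _) x2
    have m1 : |x 1| < 1 := lt_of_le_of_lt ((le_max_left _ _).trans (le_max_right _ _)) x2
    have m2 : |x 2| < 1 := lt_of_le_of_lt ((le_max_right _ _).trans (le_max_right _ _)) x2
    have hc1 : s0 * x 0 + s1 * x 1 + s2 * x 2 ≤ 3 / 2 := by linarith [k0.1, k1.1, k2.1]
    have hc2 : 3 / 2 - 3 * τ ≤ s0 * x 0 + s1 * x 1 + s2 * x 2 := by linarith
    have q0 : -(3 / 2) * τ ≤ s0 * x 0 := by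
      have e1 : |x 0| - s0 * x 0 ≤ 3 * τ := by linarith [k1.1, k2.1]
      linarith [k0.2]
    have q1 : -(3 / 2) * τ ≤ s1 * x 1 := by
      have e1 : |x 1| - s1 * x 1 ≤ 3 * τ := by linarith [k0.1, k2.1]
      linarith [k1.2]
    have q2 : -(3 / 2) * τ ≤ s2 * x 2 := by
      have e1 : |x 2| - s2 * x 2 ≤ 3 * τ := by linarith [k0.1, k1.1]
      linarith [k2.2]
    have hI3 : ∀ l, a3 l ≤ yy x l ∧ yy x l ≤ b3 l := by
      intro l
      have g1 := abs_lt.1 (x3' l)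
      have g2 := abs_lt.1 (y3' l)
      rw [ha3, hb3]
      exact ⟨max_le (by linarith) (by linarith), le_min (by linarith) (by linarith)⟩
    have mk : ∀ (a q r w α α' β β' : ℝ), α ≤ a * x 0 + q * x 1 → a * x 0 + q * x 1 ≤ α' →
        β ≤ r * x 0 + w * x 1 → r * x 0 + w * x 1 ≤ β' →
        x ∈ (Matrix.toLin' (MM p s0 s1 s2 a q r w)) ⁻¹'
          (Icc (bx ![α, β, 3 / 2 - 3 * τ] a3) (bx ![α', β', 3 / 2] b3)) := by
      intro a q r w α α' β β' g1 g2 g3 g4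
      exact mk_E _ _ _ _ _ _ _ _ _ _ _ _ ⟨g1, g2⟩ ⟨g3, g4⟩ ⟨hc2, hc1⟩ hI3
    by_cases c1 : s1 * x 1 ≤ 1 / 2
    · by_cases c2 : s0 * x 0 + s1 * x 1 ≤ 1
      · left
        refine mk _ _ _ _ _ _ _ _ (by linarith [k2.1]) c2 (by linarith) (by linarith)
      · right; left
        refine mk _ _ _ _ _ _ _ _ (by linarith) (by linarith [k0.1]) (by linarith) (by linarith)
    · by_cases c3 : s0 * x 0 ≤ 1 / 2
      · right; right
        refine mk _ _ _ _ _ _ _ _ (by linarith) (by linarith) (by linarith) (by linarith [k1.1])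
      · right; left
        refine mk _ _ _ _ _ _ _ _ (by linarith) (by linarith [k0.1]) (by linarith) (by linarith)
  have n1' : 0 ≤ (1 / 2 + 3 * τ) * (1 / 2 + 3 / 2 * τ) * (3 * τ) * mu v := by
    positivity
  have n2' : 0 ≤ (1 / 2) * (1 / 2 + 3 / 2 * τ) * (3 * τ) * mu v := by
    positivity
  calc volume (Pt p 1 ∩ tr v (Pt p 1)) ≤ volume (E1 ∪ (E2 ∪ E3)) := measure_mono hsub
    _ ≤ volume E1 + (volume E2 + volume E3) :=
        (measure_union_le _ _).trans (add_le_add le_rfl (measure_union_le _ _))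
    _ = ENNReal.ofReal ((1 / 2 + 3 * τ) * (1 / 2 + 3 / 2 * τ) * (3 * τ) * mu v +
          ((1 / 2) * (1 / 2 + 3 / 2 * τ) * (3 * τ) * mu v +
          (1 / 2) * (1 / 2 + 3 / 2 * τ) * (3 * τ) * mu v)) := by
        rw [v1, v2, v3, ENNReal.ofReal_add n1' (add_nonneg n2' n2'), ENNReal.ofReal_add n2' n2']
    _ ≤ ENNReal.ofReal (mu v * (9 / 4 * τ * (1 + 10 * τ))) := by
        apply ENNReal.ofReal_le_ofReal
        have e : (1 / 2 + 3 * τ) * (1 / 2 + 3 / 2 * τ) * (3 * τ) * mu v +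
          ((1 / 2) * (1 / 2 + 3 / 2 * τ) * (3 * τ) * mu v +
          (1 / 2) * (1 / 2 + 3 / 2 * τ) * (3 * τ) * mu v) =
          mu v * ((1 / 2 + 3 / 2 * τ) * (3 / 2 + 3 * τ) * (3 * τ)) := by ring
        rw [e]
        apply mul_le_mul_of_nonneg_left _ hP
        nlinarith [mul_pos hτ0 hτ0, mul_pos (mul_pos hτ0 hτ0) hτ0,
          mul_le_mul_of_nonneg_left hτ1 (mul_pos hτ0 hτ0).le]

end Pool.Agent.K3h99.R6
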